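import Pool.Agent.H27R2.Caranti.Comm

set_option autoImplicit false
set_option linter.unusedSimpArgs false

namespace Pool.Agent.H27R2.Caranti

lemma tl_mul_of (l : ZMod 3) (a : ZMod 9) (h : 3 * a = 0) : tl l * a = 0 := by
  unfold tl; linear_combination (l.val : ZMod 9) * h

lemma small_mul (a b : ZMod 9) (ha : 3 * a = 0) (hb : 3 * b = 0) : a * b = 0 := by
  revert a b; decide

lemma tl_ne (l : ZMod 3) (h : l ≠ 0) (a : ZMod 9) (h2 : tl l * a = 0) : 3 * a = 0 := by
  revert l a; decide

lemma tl_inj (l : ZMod 3) (h : tl l = 0) : l = 0 := by revert l; decide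

lemma F_small (x y : X5) (hx : ∀ i, 3 * x i = 0) (hy : ∀ i, 3 * y i = 0) : F x y = 0 := by
  have h : ∀ i j, x i * y j = 0 := fun i j => small_mul _ _ (hx i) (hy j)
  ext i; fin_cases i <;> simp [F, h]

lemma F_three_left (x y : X5) (hx : ∀ i, 3 * x i = 0) (c : Fin 4) : 3 * F x y c = 0 := by
  have h : ∀ i, 3 * x i = 0 := hx
  fin_cases c <;> simp only [F, Fin.zero_eta, Fin.mk_one, Fin.reduceFinMk, Matrix.cons_val_zero,
    Matrix.cons_val_one, Matrix.cons_val]
  · linear_combination (y 1) * hx 0 - (y 0) * hx 1 + y 3 * hx 2 - y 2 * hx 3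
  · linear_combination (y 2) * hx 0 - (y 0) * hx 2 + y 3 * hx 1 - y 1 * hx 3
  · linear_combination (y 3) * hx 0 - (y 0) * hx 3 - (y 2 * hx 1 - y 1 * hx 2) + y 4 * hx 2 -
      y 2 * hx 4
  · linear_combination (y 4) * hx 3 - (y 3) * hx 4

lemma ze_three (x : X5) (hx : ∀ i, 3 * x i = 0) : 3 * ze x = 0 := by
  unfold ze; linear_combination hx 0 + hx 3 + hx 4

lemma et_three (x : X5) (hx : ∀ i, 3 * x i = 0) : 3 * et x = 0 := hx 1

namespace G

lemma cube (g : G) : g ^ 3 = ⟨(3 : ZMod 9) • g.x, (3 : ZMod 9) • g.u, 3 * g.k, 0⟩ := by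
  have h2 := tl_mul g.l g.l
  have h3 := tl_three g.l
  have h9 := nine
  have e : g ^ 3 = g * (g * g) := by rw [pow_succ, pow_two, mul_assoc]
  rw [e]
  ext i
  · simp only [mul_x, mul_l, tl_add, Pi.add_apply, Pi.smul_apply, smul_eq_mul]
    linear_combination (g.x i) * h2 + (g.x i) * h3
  · simp only [mul_x, mul_u, mul_l, tl_add, F_add_right, F_smul_right, F_self, Pi.add_apply,
      Pi.smul_apply, smul_eq_mul, Pi.zero_apply]
    linear_combination (4 * g.u i) * h2 + 2 * (g.u i) * h3
  · simp only [mul_k, mul_x, mul_l, tl_add, ze_add, ze_smul, et_add, et_smul]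
    linear_combination (g.k * ze g.x) * h9 + (g.k * ze g.x - et g.x) * h3 - (et g.x) * h2
  · simp only [mul_l]
    generalize g.l = l
    revert l; decide

/-- membership in the second centre -/
def Z2 (g : G) : Prop := ∀ a b : G, cm (cm g a) b = 1

lemma cf_one_iff (g h : G) : cm g h = 1 ↔ cf g h = 1 := by rw [cm_eq]

def X (i : Fin 5) : G := ⟨Pi.single i 1, 0, 0, 0⟩
def A : G := ⟨0, 0, 1, 0⟩
def B : G := ⟨0, 0, 0, 1⟩

lemma Z2_of (g : G) (hx : ∀ i, 3 * g.x i = 0) (hl : g.l = 0) : Z2 g := by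
  intro a b
  rw [cm_eq, cm_eq]
  have c1 : (cf g a).x = 0 := by
    ext i
    simp only [cf, hl, tl_zero, zero_smul, zero_sub, Pi.neg_apply, Pi.smul_apply, smul_eq_mul,
      Pi.zero_apply, tl_mul_of _ _ (hx i), neg_zero]
  have c2 : ∀ i, 3 * (cf g a).u i = 0 := by
    intro i
    simp only [cf, hl, tl_zero, mul_zero, zero_smul, zero_sub, Pi.add_apply, Pi.neg_apply,
      Pi.smul_apply, smul_eq_mul]
    linear_combination (-2 * g.u i) * tl_three a.l +
      (1 + 0 + tl a.l) * F_three_left g.x a.x hx i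
  have c3 : 3 * (cf g a).k = 0 := by
    simp only [cf, hl, tl_zero]
    linear_combination (g.k * ze a.x - a.k * ze g.x) * nine + et g.x * tl_three a.l
  have c4 : (cf g a).l = 0 := rfl
  generalize cf g a = c at c1 c2 c3 c4
  have hF : F 0 b.x = 0 := by
    have := F_smul_left 0 0 b.x
    simpa using this
  have hz : ze 0 = 0 := by simp [ze]
  have he : et 0 = 0 := by simp [et]
  ext i
  · simp [cf, c1, c4, one_x]
  · simp only [cf, c1, c4, hF, tl_zero, mul_zero, zero_smul, smul_zero, zero_sub, add_zero,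
      Pi.neg_apply, Pi.smul_apply, smul_eq_mul, one_u, Pi.zero_apply]
    have := tl_mul_of b.l _ (c2 i)
    linear_combination (-2) * this
  · simp only [cf, c1, c4, hz, he, tl_zero, one_k]
    linear_combination ze b.x * c3
  · simp [cf, one_l]

lemma of_Z2 (g : G) (h : Z2 g) : (∀ i, 3 * g.x i = 0) ∧ g.l = 0 := by
  constructor
  · have h1 := h (X 0) B
    have h2 := h (X 3) B
    rw [cm_eq, cm_eq] at h1 h2
    have e1 := congrArg G.u h1
    have e2 := congrArg G.u h2
    simp only [cf, X, B, one_u, tl_zero, tl_one] at e1 e2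
    intro i
    have q0 := congrFun e1 0
    have q1 := congrFun e1 1
    have q2 := congrFun e1 2
    have r2 := congrFun e2 2
    have r3 := congrFun e2 3
    simp [F] at q0 q1 q2 r2 r3
    have key : ∀ z : ZMod 9, 2 * 3 * ((1 + tl g.l) * z) = 0 → 3 * z = 0 := by
      intro z hz
      linear_combination 5 * hz - (10 * z) * tl_three g.l - (3 * z) * nine
    fin_cases i
    · exact key _ r2
    · exact key _ q0
    · exact key _ q1
    · exact key _ q2
    · exact key _ r3
  · have h1 := h (X 0) (X 1)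
    rw [cm_eq, cm_eq] at h1
    have e1 := congrFun (congrArg G.u h1) 0
    simp [cf, X, one_u, F] at e1
    exact tl_inj _ e1

lemma map_cm (φ : MulAut G) (a b : G) : φ (cm a b) = cm (φ a) (φ b) := by
  simp [cm]

lemma Z2_map (φ : MulAut G) (g : G) (h : Z2 (φ g)) : Z2 g := by
  intro a b
  apply φ.injective
  rw [map_cm, map_cm, map_one]
  exact h _ _

lemma central_of (c : G) (hx : c.x = 0) (hu : ∀ i, 3 * c.u i = 0) (hk : 3 * c.k = 0)
    (hl : c.l = 0) : c ∈ Subgroup.center G := by
  rw [Subgroup.mem_center_iff]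
  intro g
  have : cm c g = 1 := by
    rw [cm_eq]
    have hF : F 0 g.x = 0 := by
      have := F_smul_left 0 0 g.x
      simpa using this
    have hz : ze 0 = 0 := by simp [ze]
    have he : et 0 = 0 := by simp [et]
    ext i
    · simp [cf, hx, hl, one_x]
    · simp only [cf, hx, hl, hF, tl_zero, mul_zero, zero_smul, smul_zero, zero_sub, add_zero,
        Pi.neg_apply, Pi.smul_apply, smul_eq_mul, one_u, Pi.zero_apply]
      have := tl_mul_of g.l _ (hu i)
      linear_combination (-2) * this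
    · simp only [cf, hx, hl, hz, he, tl_zero, one_k]
      linear_combination ze g.x * hk
    · simp [cf, one_l]
  unfold cm at this
  have h2 : c * g = g * c := by
    calc c * g = (c * g * c⁻¹ * g⁻¹) * (g * c) := by group
      _ = g * c := by rw [this, one_mul]
  exact h2.symm

end G

end Pool.Agent.H27R2.Caranti
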