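import Pool.Agent.H27R2.Caranti.Gen

set_option autoImplicit false
set_option linter.unusedSimpArgs false

namespace Pool.Agent.H27R2.Caranti

lemma split (a b : ZMod 3) (x y : X5) (e : ∀ j, tl a * y j = tl b * x j) :
    (a = 0 ∧ b = 0) ∨ (a = 0 ∧ ∀ j, 3 * x j = 0) ∨ (b = 0 ∧ ∀ j, 3 * y j = 0) ∨
    (a = b ∧ ∀ j, 3 * (x j - y j) = 0) ∨ (a + b = 0 ∧ ∀ j, 3 * (x j + y j) = 0) := by
  have key : ∀ (a b : ZMod 3) (x y : ZMod 9), tl a * y = tl b * x →
      (a = 0 → b ≠ 0 → 3 * x = 0) ∧ (a ≠ 0 → b = 0 → 3 * y = 0) ∧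
      (a ≠ 0 → a = b → 3 * (x - y) = 0) ∧ (a ≠ 0 → a + b = 0 → 3 * (x + y) = 0) := by decide
  have k := fun j => key a b (x j) (y j) (e j)
  by_cases ha : a = 0
  · by_cases hb : b = 0
    · exact Or.inl ⟨ha, hb⟩
    · exact Or.inr (Or.inl ⟨ha, fun j => (k j).1 ha hb⟩)
  · by_cases hb : b = 0
    · exact Or.inr (Or.inr (Or.inl ⟨hb, fun j => (k j).2.1 ha hb⟩))
    · have h00 : ∀ a b : ZMod 3, a ≠ 0 → b ≠ 0 → a = b ∨ a + b = 0 := by decide
      have : a = b ∨ a + b = 0 := h00 a b ha hb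
      rcases this with h | h
      · exact Or.inr (Or.inr (Or.inr (Or.inl ⟨h, fun j => (k j).2.2.1 ha h⟩)))
      · exact Or.inr (Or.inr (Or.inr (Or.inr ⟨h, fun j => (k j).2.2.2 ha h⟩)))

namespace G

lemma Z2_mul_of (p q : G) (h : ∀ j, 3 * (p.x j + q.x j) = 0) (hl : p.l + q.l = 0) :
    Z2 (p * q) := by
  apply Z2_of
  · intro i
    simp only [mul_x, Pi.add_apply, Pi.smul_apply, smul_eq_mul]
    linear_combination h i + q.x i * tl_three p.l
  · simpa [mul_l] using hl

lemma Z2_div_of (p q : G) (h : ∀ j, 3 * (p.x j - q.x j) = 0) (hl : p.l = q.l) :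
    Z2 (p * q⁻¹) := by
  apply Z2_of
  · intro i
    simp only [mul_x, inv_x, Pi.add_apply, Pi.smul_apply, Pi.neg_apply, smul_eq_mul]
    linear_combination h i - (1 - tl q.l) * q.x i * tl_three p.l + q.x i * tl_three q.l
  · simp [mul_l, inv_l, hl]

lemma not_Z2_X (i : Fin 5) : ¬ Z2 (X i) := by
  intro h
  have := (of_Z2 _ h).1 i
  simp [X] at this
  revert this; decide

lemma not_Z2_XX (i j : Fin 5) (hij : i ≠ j) : ¬ Z2 (X i * X j) := by
  intro h
  have h1 := (of_Z2 _ h).1 i
  simp only [mul_x, X, Pi.add_apply, Pi.smul_apply, smul_eq_mul, Pi.single_eq_same, tl_zero,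
    Pi.single_eq_of_ne hij] at h1
  revert h1; decide

lemma not_Z2_XX' (i j : Fin 5) (hij : i ≠ j) : ¬ Z2 (X i * (X j)⁻¹) := by
  intro h
  have h1 := (of_Z2 _ h).1 i
  simp only [mul_x, inv_x, X, Pi.add_apply, Pi.smul_apply, Pi.neg_apply, smul_eq_mul,
    Pi.single_eq_same, tl_zero, Pi.single_eq_of_ne hij] at h1
  revert h1; decide

/-- the data extracted from the relations between the generators -/
structure Sys (g : Fin 5 → G) (h α : G) : Prop where
  c25 : cf (g 1) (g 4) = 1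
  c15 : cf (g 0) (g 4) = 1
  c23 : cf (g 1) (g 2) = cf (g 4) (g 2)
  c14 : cf (g 0) (g 3) = cf (g 2) (g 4)
  c13 : cf (g 0) (g 2) = cf (g 1) (g 3)
  c12 : cf (g 0) (g 1) = cf (g 2) (g 3)
  cB : ∀ i, i ≠ 1 → cf h (g i) = g i ^ 3
  cB1 : cf h (g 1) * α ^ 3 = g 1 ^ 3
  cA : ∀ i, i ≠ 1 → i ≠ 2 → cf α (g i) = α ^ 3
  cA' : ∀ i, i = 1 ∨ i = 2 → cf α (g i) = 1
  cAB : cf α h = 1
  hB3 : h ^ 3 = 1
  hA3 : α ^ 3 ≠ 1
  nz : ∀ i, ¬ Z2 (g i)
  nadd : ∀ i j, i ≠ j → ¬ Z2 (g i * g j)
  nsub : ∀ i j, i ≠ j → ¬ Z2 (g i * (g j)⁻¹)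

lemma sys_of (φ : MulAut G) : Sys (fun i => φ (X i)) (φ B) (φ A) where
  c25 := by rw [← cm_eq, ← map_cm, rel25, map_one]
  c15 := by rw [← cm_eq, ← map_cm, rel15, map_one]
  c23 := by rw [← cm_eq, ← cm_eq, ← map_cm, ← map_cm, rel23]
  c14 := by rw [← cm_eq, ← cm_eq, ← map_cm, ← map_cm, rel14]
  c13 := by rw [← cm_eq, ← cm_eq, ← map_cm, ← map_cm, rel13]
  c12 := by rw [← cm_eq, ← cm_eq, ← map_cm, ← map_cm, rel12]
  cB := fun i hi => by rw [← cm_eq, ← map_cm, relB i hi, map_pow]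
  cB1 := by rw [← cm_eq, ← map_cm, ← map_pow, ← map_mul, relB1, map_pow]
  cA := fun i h1 h2 => by rw [← cm_eq, ← map_cm, relA i h1 h2, map_pow]
  cA' := fun i h1 => by rw [← cm_eq, ← map_cm, relA' i h1, map_one]
  cAB := by rw [← cm_eq, ← map_cm, relAB, map_one]
  hB3 := by rw [← map_pow, relB3, map_one]
  hA3 := by
    rw [← map_pow]
    intro h
    exact A3 (φ.injective (by rw [h, map_one]))
  nz := fun i h => not_Z2_X i (Z2_map φ _ h)
  nadd := fun i j hij h => not_Z2_XX i j hij (Z2_map φ _ (by rw [map_mul]; exact h))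
  nsub := fun i j hij h => not_Z2_XX' i j hij (Z2_map φ _ (by rw [map_mul, map_inv]; exact h))

section
variable {g : Fin 5 → G} {h α : G} (S : Sys g h α)
include S

lemma hx (i : Fin 5) : 3 * h.x i = 0 := by
  have := congrFun (congrArg G.x S.hB3) i
  rw [cube] at this
  simpa [one_x] using this

lemma hu (i : Fin 4) : 3 * h.u i = 0 := by
  have := congrFun (congrArg G.u S.hB3) i
  rw [cube] at this
  simpa [one_u] using this

lemma hk : 3 * h.k = 0 := by
  have := congrArg G.k S.hB3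
  rw [cube] at this
  simpa [one_k] using this

lemma hl : h.l = 1 := by
  by_contra hne
  have key : ∀ (l : ZMod 3), l ≠ 1 → ∀ a : ZMod 9, tl l * a = 3 * a → 3 * a = 0 := by decide
  have e : ∀ i, i ≠ 1 → ∀ j, 3 * (g i).x j = 0 := by
    intro i hi j
    apply key h.l hne
    have h1 := congrFun (congrArg G.x (S.cB i hi)) j
    rw [cube] at h1
    simp only [cf, Pi.sub_apply, Pi.smul_apply, smul_eq_mul, tl_mul_of _ _ (hx S j),
      sub_zero] at h1
    exact h1
  have l0 : (g 0).l ≠ 0 := fun hh => S.nz 0 (Z2_of _ (e 0 (by decide)) hh)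
  have l2 : (g 2).l ≠ 0 := fun hh => S.nz 2 (Z2_of _ (e 2 (by decide)) hh)
  have : (g 0).l = (g 2).l ∨ (g 0).l + (g 2).l = 0 := by
    revert l0 l2
    generalize (g 0).l = a
    generalize (g 2).l = b
    revert a b; decide
  rcases this with hh | hh
  · exact S.nsub 0 2 (by decide) (Z2_div_of _ _ (fun j => by
      rw [mul_sub, e 0 (by decide), e 2 (by decide), sub_zero]) hh)
  · exact S.nadd 0 2 (by decide) (Z2_mul_of _ _ (fun j => by
      rw [mul_add, e 0 (by decide), e 2 (by decide), add_zero]) hh)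

lemma pair (i j : Fin 5) (hij : i ≠ j)
    (e : ∀ c, tl (g i).l * (g j).x c = tl (g j).l * (g i).x c) : (g i).l = 0 ∧ (g j).l = 0 := by
  rcases split _ _ _ _ e with h1 | h1 | h1 | h1 | h1
  · exact h1
  · exact absurd (Z2_of _ h1.2 h1.1) (S.nz i)
  · exact absurd (Z2_of _ h1.2 h1.1) (S.nz j)
  · exact absurd (Z2_div_of _ _ h1.2 h1.1) (S.nsub i j hij)
  · exact absurd (Z2_mul_of _ _ h1.2 h1.1) (S.nadd i j hij)

lemma gl14 : (g 1).l = 0 ∧ (g 4).l = 0 := by
  apply pair S 1 4 (by decide)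
  intro c
  have h1 := congrFun (congrArg G.x S.c25) c
  simp only [cf, Pi.sub_apply, Pi.smul_apply, smul_eq_mul, one_x, Pi.zero_apply] at h1
  linear_combination h1

lemma gl04 : (g 0).l = 0 ∧ (g 4).l = 0 := by
  apply pair S 0 4 (by decide)
  intro c
  have h1 := congrFun (congrArg G.x S.c15) c
  simp only [cf, Pi.sub_apply, Pi.smul_apply, smul_eq_mul, one_x, Pi.zero_apply] at h1
  linear_combination h1

lemma gl23 : (g 2).l = 0 ∧ (g 3).l = 0 := by
  have e : ∀ c, tl (g 2).l * (g 0).x c = tl (g 3).l * (g 1).x c := by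
    intro c
    have h1 := congrFun (congrArg G.x S.c13) c
    simp only [cf, Pi.sub_apply, Pi.smul_apply, smul_eq_mul, (gl14 S).1, (gl04 S).1, tl_zero] at h1
    linear_combination -h1
  have l0 := (gl04 S).1
  have l1 := (gl14 S).1
  rcases split _ _ _ _ e with h1 | h1 | h1 | h1 | h1
  · exact h1
  · exact absurd (Z2_of _ h1.2 l1) (S.nz 1)
  · exact absurd (Z2_of _ h1.2 l0) (S.nz 0)
  · exact absurd (Z2_div_of _ _ h1.2 (by rw [l0, l1])) (S.nsub 1 0 (by decide))
  · exact absurd (Z2_mul_of _ _ h1.2 (by rw [l0, l1]; rfl)) (S.nadd 1 0 (by decide))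

lemma gl (i : Fin 5) : (g i).l = 0 := by
  fin_cases i
  · exact (gl04 S).1
  · exact (gl14 S).1
  · exact (gl23 S).1
  · exact (gl23 S).2
  · exact (gl14 S).2

lemma αx (j : Fin 5) : 3 * α.x j = 0 := by
  have h1 := congrFun (congrArg G.x S.cAB) j
  simp only [cf, Pi.sub_apply, Pi.smul_apply, smul_eq_mul, one_x, Pi.zero_apply, hl S, tl_one,
    tl_mul_of _ _ (hx S j)] at h1
  linear_combination -h1

lemma αl : α.l = 0 := by
  by_contra hne
  apply S.nz 1
  apply Z2_of _ _ (gl S 1)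
  intro j
  apply tl_ne _ hne
  have h1 := congrFun (congrArg G.x (S.cA' 1 (Or.inl rfl))) j
  simp only [cf, Pi.sub_apply, Pi.smul_apply, smul_eq_mul, one_x, Pi.zero_apply, gl S 1,
    tl_zero] at h1
  linear_combination h1

lemma αu (j : Fin 4) : 3 * α.u j = 0 := by
  have h1 := congrFun (congrArg G.u S.cAB) j
  simp only [cf, Pi.sub_apply, Pi.add_apply, Pi.smul_apply, smul_eq_mul, one_u, Pi.zero_apply,
    hl S, tl_one, αl S, tl_zero, F_small _ _ (αx S) (hx S)] at h1
  linear_combination -5 * h1 - (3 * α.u j) * nine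

lemma αk : 3 * α.k ≠ 0 := by
  intro hh
  apply S.hA3
  rw [cube]
  ext i
  · simpa [one_x] using αx S i
  · simpa [one_u] using αu S i
  · simpa [one_k] using hh
  · rfl

lemma αFg (i : Fin 5) : F α.x (g i).x = 0 := by
  ext j
  by_cases hi : i = 1 ∨ i = 2
  · have h1 := congrFun (congrArg G.u (S.cA' i hi)) j
    simp only [cf, Pi.sub_apply, Pi.add_apply, Pi.smul_apply, smul_eq_mul, one_u, Pi.zero_apply,
      gl S, αl S, tl_zero] at h1
    simpa using h1
  · push Not at hi
    have h1 := congrFun (congrArg G.u (S.cA i hi.1 hi.2)) j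
    rw [cube] at h1
    simp only [cf, Pi.sub_apply, Pi.add_apply, Pi.smul_apply, smul_eq_mul, one_u, Pi.zero_apply,
      gl S, αl S, tl_zero, αu S] at h1
    simpa using h1

lemma ze_g (i : Fin 5) : rd (ze (g i).x) = if i = 1 ∨ i = 2 then 0 else 1 := by
  have key0 : ∀ k z : ZMod 9, 3 * k ≠ 0 → 3 * (k * z) = 0 → rd z = 0 := by decide
  have key1 : ∀ k z : ZMod 9, 3 * k ≠ 0 → 3 * (k * z) = 3 * k → rd z = 1 := by decide
  have hza : 3 * ze α.x = 0 := ze_three _ (αx S)
  split_ifs with hi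
  · have h1 := congrArg G.k (S.cA' i hi)
    simp only [cf, one_k, gl S, αl S, tl_zero] at h1
    apply key0 α.k _ (αk S)
    linear_combination h1 + (g i).k * hza
  · push Not at hi
    have h1 := congrArg G.k (S.cA i hi.1 hi.2)
    rw [cube] at h1
    simp only [cf, one_k, gl S, αl S, tl_zero] at h1
    apply key1 α.k _ (αk S)
    linear_combination h1 + (g i).k * hza

lemma gk (i : Fin 5) : rd (g i).k = (if i = 1 then rd α.k else 0) - rd ((g i).x 1) := by
  have hzh : 3 * ze h.x = 0 := ze_three _ (hx S)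
  split_ifs with hi
  · subst hi
    have h1 := congrArg G.k S.cB1
    rw [cube, cube] at h1
    have e0 : ze ((3 : ZMod 9) • α.x) = 0 := by rw [ze_smul]; exact ze_three _ (αx S)
    have e1 : et ((3 : ZMod 9) • α.x) = 0 := by rw [et_smul]; exact et_three _ (αx S)
    simp only [mul_k, cf, gl S, hl S, tl_zero, tl_one, e0, e1, et] at h1
    have h2 : 3 * ((g 1).k - α.k + (g 1).x 1) = 0 := by
      linear_combination -h1 - (g 1).k * hzh + ze (g 1).x * hk S
    rw [rd_iff] at h2
    simp only [map_add, map_sub] at h2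
    linear_combination h2
  · have h1 := congrArg G.k (S.cB i hi)
    rw [cube] at h1
    simp only [cf, gl S, hl S, tl_zero, tl_one, et] at h1
    have h2 : 3 * ((g i).k + (g i).x 1) = 0 := by
      linear_combination -h1 - (g i).k * hzh + ze (g i).x * hk S
    rw [rd_iff] at h2
    simp only [map_add] at h2
    linear_combination h2

omit S in
lemma Fm_rd (x y : X5) (c : Fin 4) :
    Fm (fun j => rd (x j)) (fun j => rd (y j)) c = rd (F x y c) := by
  fin_cases c <;> simp [Fm, F]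

lemma FF14 : F (g 1).x (g 4).x = 0 := by
  ext j
  have h1 := congrFun (congrArg G.u S.c25) j
  simp only [cf, Pi.sub_apply, Pi.add_apply, Pi.smul_apply, smul_eq_mul, one_u, Pi.zero_apply,
    gl S, tl_zero] at h1
  simpa using h1

lemma FF04 : F (g 0).x (g 4).x = 0 := by
  ext j
  have h1 := congrFun (congrArg G.u S.c15) j
  simp only [cf, Pi.sub_apply, Pi.add_apply, Pi.smul_apply, smul_eq_mul, one_u, Pi.zero_apply,
    gl S, tl_zero] at h1
  simpa using h1

lemma FF12 : F (g 1).x (g 2).x = F (g 4).x (g 2).x := by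
  ext j
  have h1 := congrFun (congrArg G.u S.c23) j
  simp only [cf, Pi.sub_apply, Pi.add_apply, Pi.smul_apply, smul_eq_mul, one_u, Pi.zero_apply,
    gl S, tl_zero] at h1
  simpa using h1

lemma FF03 : F (g 0).x (g 3).x = F (g 2).x (g 4).x := by
  ext j
  have h1 := congrFun (congrArg G.u S.c14) j
  simp only [cf, Pi.sub_apply, Pi.add_apply, Pi.smul_apply, smul_eq_mul, one_u, Pi.zero_apply,
    gl S, tl_zero] at h1
  simpa using h1

lemma FF02 : F (g 0).x (g 2).x = F (g 1).x (g 3).x := by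
  ext j
  have h1 := congrFun (congrArg G.u S.c13) j
  simp only [cf, Pi.sub_apply, Pi.add_apply, Pi.smul_apply, smul_eq_mul, one_u, Pi.zero_apply,
    gl S, tl_zero] at h1
  simpa using h1

lemma FF01 : F (g 0).x (g 1).x = F (g 2).x (g 3).x := by
  ext j
  have h1 := congrFun (congrArg G.u S.c12) j
  simp only [cf, Pi.sub_apply, Pi.add_apply, Pi.smul_apply, smul_eq_mul, one_u, Pi.zero_apply,
    gl S, tl_zero] at h1
  simpa using h1

/-- relation between the fourth coordinates, from an equality of commutators -/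
lemma kk (i j m n : Fin 5) (e : cf (g i) (g j) = cf (g m) (g n)) :
    rd (g i).k * rd (ze (g j).x) - rd (g j).k * rd (ze (g i).x) =
      rd (g m).k * rd (ze (g n).x) - rd (g n).k * rd (ze (g m).x) := by
  have h1 := congrArg G.k e
  simp only [cf, gl S, tl_zero] at h1
  have h2 : 3 * (((g i).k * ze (g j).x - (g j).k * ze (g i).x) -
      ((g m).k * ze (g n).x - (g n).k * ze (g m).x)) = 0 := by linear_combination h1
  rw [rd_iff] at h2
  simp only [map_sub, map_mul] at h2
  linear_combination h2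

lemma kk1 (i j : Fin 5) (e : cf (g i) (g j) = 1) :
    rd (g i).k * rd (ze (g j).x) - rd (g j).k * rd (ze (g i).x) = 0 := by
  have h1 := congrArg G.k e
  simp only [cf, gl S, tl_zero, one_k] at h1
  have h2 : 3 * (((g i).k * ze (g j).x - (g j).k * ze (g i).x)) = 0 := by linear_combination h1
  rw [rd_iff] at h2
  simp only [map_sub, map_mul] at h2
  linear_combination h2

lemma core : (∀ i j, rd ((g i).x j) = if i = j then 1 else 0) ∧ rd α.k = 1 := by
  have z0 := ze_g S 0
  have z1 := ze_g S 1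
  have z2 := ze_g S 2
  have z3 := ze_g S 3
  have z4 := ze_g S 4
  simp at z0 z1 z2 z3 z4
  have k14 := kk1 S 1 4 S.c25
  have k04 := kk1 S 0 4 S.c15
  have k12 := kk S 1 2 4 2 S.c23
  have k03 := kk S 0 3 2 4 S.c14
  rw [z1, z4] at k14
  rw [z0, z4] at k04
  rw [z1, z2, z4] at k12
  rw [z0, z2, z3, z4] at k03
  have e0 := gk S 0
  have e1 := gk S 1
  have e2 := gk S 2
  have e3 := gk S 3
  have e4 := gk S 4
  simp at e0 e1 e2 e3 e4
  have hk' : rd α.k ≠ 0 := by
    intro hh
    exact αk S ((rd_iff _).mpr hh)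
  apply search (fun i j => rd ((g i).x j)) (rd α.k) hk'
  · have := z0; simp only [ze, map_add] at this; exact this
  · have := z1; simp only [ze, map_add] at this; exact this
  · have := z2; simp only [ze, map_add] at this; exact this
  · have := z3; simp only [ze, map_add] at this; exact this
  · have := z4; simp only [ze, map_add] at this; exact this
  · linear_combination e1 - k14
  · linear_combination e2 - k12
  · linear_combination e3 - e0 + k03 + k12
  · linear_combination e4 - e0 + k04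
  · intro hh
    apply S.nz 2
    apply Z2_of _ _ (gl S 2)
    intro j
    rw [rd_iff]
    exact congrFun hh j
  · ext c; rw [Fm_rd, FF04 S]; simp
  · ext c; rw [Fm_rd, FF14 S]; simp
  · ext c; rw [Fm_rd, Fm_rd, FF12 S]
  · ext c; rw [Fm_rd, Fm_rd, FF03 S]
  · ext c; rw [Fm_rd, Fm_rd, FF02 S]
  · ext c; rw [Fm_rd, Fm_rd, FF01 S]

/-- the deviation of the images of the generators from the generators -/
lemma dev : ∃ (w : Fin 5 → X5) (_ : ∀ i j, 3 * w i j = 0),
    ∀ i, (g i).x = Pi.single i 1 + w i := by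
  refine ⟨fun i => (g i).x - Pi.single i 1, ?_, fun i => by simp⟩
  intro i j
  show 3 * ((g i).x j - (Pi.single i 1 : X5) j) = 0
  rw [rd_iff, map_sub, (core S).1 i j]
  by_cases hij : i = j
  · subst hij; simp
  · rw [Pi.single_eq_of_ne (Ne.symm hij)]; simp [hij]

omit S in
lemma F_dev (i j : Fin 5) (v w : X5) (hv : ∀ i, 3 * v i = 0) (hw : ∀ i, 3 * w i = 0) :
    F (Pi.single i 1 + v) (Pi.single j 1 + w) =
      F (Pi.single i 1) (Pi.single j 1) + F (Pi.single i 1) w + F v (Pi.single j 1) := by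
  rw [F_add_left, F_add_right, F_add_right, F_small v w hv hw, add_zero]

lemma scalar : ∃ l : ZMod 3, ∀ i, (g i).x = (1 + tl l) • Pi.single i 1 := by
  obtain ⟨w, hw, e⟩ := dev S
  have h14 := FF14 S
  have h04 := FF04 S
  have h12 := FF12 S
  have h03 := FF03 S
  have h02 := FF02 S
  have h01 := FF01 S
  simp only [e] at h14 h04 h12 h03 h02 h01
  simp only [F_dev _ _ _ _ (hw _) (hw _)] at h14 h04 h12 h03 h02 h01
  have a0 := congrFun h14 0
  have a1 := congrFun h14 1
  have a2 := congrFun h14 2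
  have a3 := congrFun h14 3
  have b0 := congrFun h04 0
  have b1 := congrFun h04 1
  have b2 := congrFun h04 2
  have b3 := congrFun h04 3
  have c0 := congrFun h12 0
  have c1 := congrFun h12 1
  have c2 := congrFun h12 2
  have c3 := congrFun h12 3
  have d0 := congrFun h03 0
  have d1 := congrFun h03 1
  have d2 := congrFun h03 2
  have d3 := congrFun h03 3
  have f0 := congrFun h02 0
  have f1 := congrFun h02 1
  have f2 := congrFun h02 2
  have f3 := congrFun h02 3
  have g0 := congrFun h01 0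
  have g1 := congrFun h01 1
  have g2 := congrFun h01 2
  have g3 := congrFun h01 3
  simp [F] at a0 a1 a2 a3 b0 b1 b2 b3 c0 c1 c2 c3 d0 d1 d2 d3 f0 f1 f2 f3 g0 g1 g2 g3
  have n9 := nine
  have w10 : w 1 0 = 0 := by linear_combination c1 - c3 + a0
  have w04 : w 0 4 = 0 := by linear_combination -d3 - c3
  have w01 : w 0 1 = 0 := by
    linear_combination 5 * d1 - 5 * f2 - 5 * a0 + 5 * c3 - 5 * w04 - 5 * w10 - w 0 1 * n9
  have w30 : w 3 0 = 0 := by linear_combination 5 * f0 + 5 * g1 + 10 * b3 - w 3 0 * n9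
  have w12 : w 1 2 = 0 := by linear_combination a2 + b1
  have w21 : w 2 1 = 0 := by linear_combination f0 - w30 + w12 + b3
  have w02 : w 0 2 = 0 := by linear_combination b2 - a1
  have w20 : w 2 0 = 0 := by linear_combination -c0 - a3 + a1
  have w31 : w 3 1 = 0 := by linear_combination d0 - w02 + a1
  have w32 : w 3 2 = 0 := by linear_combination d1 - w01 - a0
  have w34 : w 3 4 = 0 := by linear_combination -g2 + a3 + w02 - w31 - w20
  have w44 : w 4 4 = w 1 1 := by linear_combination c2 + f3 - b0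
  have w33 : w 3 3 = w 0 0 := by
    linear_combination -5 * f1 - 5 * g0 - (w 3 3 - w 0 0) * n9
  have w22 : w 2 2 = w 1 1 := by linear_combination f1 + w33
  have w11 : w 1 1 = w 0 0 := by
    linear_combination -5 * d2 + 5 * w33 - 5 * b0 - 5 * w44 - 5 * w22 - (w 1 1 - w 0 0) * n9
  obtain ⟨l, hl⟩ := rd_lift (w 0 0) (hw 0 0)
  refine ⟨l, ?_⟩
  intro i
  rw [e i]
  ext j
  rw [Pi.add_apply, Pi.smul_apply, smul_eq_mul, ← hl]
  fin_cases i <;> fin_cases j <;> simp [*]

end

end G

end Pool.Agent.H27R2.Caranti
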