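import Pool.Agent.H27R2.Caranti.Grp

set_option autoImplicit false
set_option linter.unusedSimpArgs false

namespace Pool.Agent.H27R2.Caranti

namespace G

/-- the commutator -/
def cm (g h : G) : G := g * h * g⁻¹ * h⁻¹

/-- closed formula for the commutator -/
def cf (g h : G) : G where
  x := tl g.l • h.x - tl h.l • g.x
  u := (2 * tl g.l) • h.u - (2 * tl h.l) • g.u + (1 + tl g.l + tl h.l) • F g.x h.x
  k := 3 * (g.k * ze h.x - h.k * ze g.x) - (tl g.l * et h.x - tl h.l * et g.x)
  l := 0

lemma F_sub_left (x y z : X5) : F (x - y) z = F x z - F y z := by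
  rw [sub_eq_add_neg, F_add_left, ← neg_one_smul (ZMod 9) y, F_smul_left, neg_one_smul,
    sub_eq_add_neg]

lemma ze_sub (x y : X5) : ze (x - y) = ze x - ze y := by simp [ze]; ring
lemma et_sub (x y : X5) : et (x - y) = et x - et y := by simp [et]

lemma cm_eq (g h : G) : cm g h = cf g h := by
  have key : g * h = cf g h * (h * g) := by
    have h1 := tl_mul g.l h.l
    have h2 := tl_mul g.l g.l
    have h2' := tl_mul h.l h.l
    have h3 := tl_three g.l
    have h4 := tl_three h.l
    have h9 := nine
    ext i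
    · simp only [cf, mul_x, tl_zero, Pi.add_apply, Pi.sub_apply, Pi.smul_apply, smul_eq_mul]
      ring
    · simp only [cf, mul_x, mul_u, tl_zero, F_add_left, F_add_right, F_sub_left, F_smul_left,
        F_smul_right, F_self, F_anti g.x h.x, Pi.add_apply, Pi.sub_apply, Pi.smul_apply,
        Pi.neg_apply, Pi.zero_apply, smul_eq_mul]
      linear_combination (F g.x h.x i * (1 + tl g.l + tl h.l)) * h9 + (5 * F g.x h.x i) * h1
    · simp only [cf, mul_k, mul_x, mul_l, tl_zero, ze_add, ze_smul, ze_sub, et_add, et_smul, et_sub]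
      linear_combination (-(g.k * ze h.x - h.k * ze g.x) * (ze h.x + (1 + tl h.l) * ze g.x)) * h9 +
        (et h.x * (ze h.x + (1 + tl h.l) * ze g.x)) * h3 -
        (et g.x * (ze h.x + (1 + tl h.l) * ze g.x)) * h4
    · simp only [cf, mul_l]; ring
  unfold cm
  rw [key]; group

end G

end Pool.Agent.H27R2.Caranti
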