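import Pool.Agent.H27R2.Caranti.Auto

set_option autoImplicit false
set_option linter.unusedSimpArgs false

namespace Pool.Agent.H27R2.Caranti

namespace G

section
variable {g : Fin 5 → G} {h α : G} (S : Sys g h α)
include S

lemma gu (i : Fin 5) (c : Fin 4) : 3 * (g i).u c = -F h.x (Pi.single i 1) c := by
  obtain ⟨l, hgx⟩ := scalar S
  have key : F h.x (g i).x c = F h.x (Pi.single i 1) c := by
    have h3 := F_three_left h.x (Pi.single i 1) (hx S) c
    rw [hgx i, F_smul_right, Pi.smul_apply, smul_eq_mul]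
    have := tl_mul_of l _ h3
    linear_combination this
  have h3 := F_three_left h.x (Pi.single i 1) (hx S) c
  by_cases hi : i = 1
  · subst hi
    have h1 := congrFun (congrArg G.u S.cB1) c
    rw [cube, cube] at h1
    have hF : F (cf h (g 1)).x ((3 : ZMod 9) • α.x) c = 0 := by
      have : (3 : ZMod 9) • α.x = 0 := by
        ext j; simpa using αx S j
      rw [this]
      have := F_smul_right 0 (cf h (g 1)).x 0
      rw [zero_smul, zero_smul] at this
      rw [this, Pi.zero_apply]
    simp only [mul_u, Pi.add_apply, Pi.smul_apply, smul_eq_mul, hF, αu S] at h1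
    simp only [cf, gl S, hl S, tl_zero, tl_one, Pi.sub_apply, Pi.add_apply, Pi.smul_apply,
      smul_eq_mul, key] at h1
    linear_combination h1 - h3
  · have h1 := congrFun (congrArg G.u (S.cB i hi)) c
    rw [cube] at h1
    simp only [cf, gl S, hl S, tl_zero, tl_one, Pi.sub_apply, Pi.add_apply, Pi.smul_apply,
      smul_eq_mul, key] at h1
    linear_combination h1 - h3

lemma gk0 (i : Fin 5) : 3 * (g i).k = 0 := by
  rw [rd_iff, gk S i, (core S).1 i 1]
  by_cases hi : i = 1
  · subst hi; simp [(core S).2]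
  · simp [hi]

lemma αx0 : α.x = 0 := by
  obtain ⟨l, hgx⟩ := scalar S
  have key : ∀ i c, F α.x (Pi.single i 1) c = 0 := by
    intro i c
    have h1 := congrFun (αFg S i) c
    rw [hgx i, F_smul_right, Pi.smul_apply, smul_eq_mul, Pi.zero_apply] at h1
    have h2 := tl_mul l l
    linear_combination (1 - tl l) * h1 + F α.x (Pi.single i 1) c * h2
  have q0 := key 0 0
  have q1 := key 0 1
  have q2 := key 0 2
  have q3 := key 3 2
  have q4 := key 3 3
  simp [F] at q0 q1 q2 q3 q4
  ext j
  fin_cases j <;> simp [*]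

end

theorem inner_mod_center (φ : MulAut G) :
    ∃ h0 : G, ∀ a ∈ gens, φ a * (MulAut.conj h0 a)⁻¹ ∈ Subgroup.center G := by
  have S := sys_of φ
  obtain ⟨l, hgx⟩ := scalar S
  have hy : ∃ y : X5, ∀ j, -(3 * y j) = (φ B).x j := by
    have : ∀ j, ∃ z : ZMod 9, -(3 * z) = (φ B).x j := by
      intro j
      have h1 := hx S j
      revert h1
      generalize (φ B).x j = a
      revert a; decide
    choose y hy using this
    exact ⟨y, hy⟩
  obtain ⟨y, hy⟩ := hy
  have hF0 : ∀ x : X5, F x 0 = 0 := by
    intro x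
    have := F_smul_right 0 x 0
    rwa [zero_smul, zero_smul] at this
  have hz : ze 0 = 0 := by simp [ze]
  have he : et 0 = 0 := by simp [et]
  have hconj : ∀ a : G, MulAut.conj (⟨y, 0, 0, l⟩ : G) a = cf ⟨y, 0, 0, l⟩ a * a := by
    intro a
    rw [← cm_eq]
    simp [cm, mul_assoc]
  refine ⟨⟨y, 0, 0, l⟩, ?_⟩
  rintro a (⟨i, rfl⟩ | rfl | rfl)
  · rw [hconj]
    have hFy : ∀ c, F (φ B).x (Pi.single i 1) c = -(3 * F y (Pi.single i 1) c) := by
      intro c
      have : (φ B).x = (-3 : ZMod 9) • y := by
        ext j; rw [Pi.smul_apply, smul_eq_mul, ← hy j]; ring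
      rw [this, F_smul_left, Pi.smul_apply, smul_eq_mul]; ring
    apply mul_inv_central
    · have h1 := hgx i
      rw [h1]
      ext j
      simp only [mul_x, cf, X, tl_zero, Pi.add_apply, Pi.sub_apply, Pi.smul_apply, smul_eq_mul]
      ring
    · rw [gl S i]; simp [mul_l, cf, X]
    · intro c
      have h1 := gu S i c
      rw [hFy c] at h1
      generalize φ (X i) = p at h1 ⊢
      have hFs : F (cf ⟨y, 0, 0, l⟩ (X i)).x (X i).x c = 0 := by
        show F (tl l • Pi.single i 1 - tl 0 • y) (Pi.single i 1) c = 0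
        rw [tl_zero, zero_smul, sub_zero, F_smul_left, F_self]; simp
      simp only [mul_u, Pi.add_apply, Pi.smul_apply, smul_eq_mul, hFs]
      simp only [cf, X, tl_zero, Pi.add_apply, Pi.sub_apply, Pi.smul_apply, smul_eq_mul,
        Pi.zero_apply]
      linear_combination h1 - F y (Pi.single i 1) c * tl_three l
    · have h1 := gk0 S i
      generalize φ (X i) = p at h1 ⊢
      simp only [mul_k, cf, X, tl_zero]
      have h3 := tl_three l
      linear_combination h1 + (et (Pi.single i 1) + 3 * et (Pi.single i 1) * ze (Pi.single i 1)) * h3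
  · rw [hconj]
    apply mul_inv_central
    · rw [αx0 S]
      ext j
      simp [mul_x, cf, A]
    · rw [αl S]; simp [mul_l, cf, A]
    · intro c
      have h1 := αu S c
      have hFs : F (tl l • (0 : X5) - (0 : ZMod 9) • y) 0 c = 0 := by
        rw [hF0]; rfl
      generalize φ A = p at h1 ⊢
      simp only [mul_u, cf, A, tl_zero, Pi.add_apply, Pi.sub_apply, Pi.smul_apply, smul_eq_mul,
        Pi.zero_apply, hFs, hF0]
      linear_combination h1
    · have h1 := (core S).2
      have h2 : 3 * ((φ A).k - 1) = 0 := by rw [rd_iff, map_sub, h1]; simp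
      clear h1
      generalize φ A = p at h2 ⊢
      simp only [mul_k, cf, A, tl_zero, hz, he]
      linear_combination h2 + ze y * nine
  · rw [hconj]
    apply mul_inv_central
    · ext j
      have h1 := hy j
      generalize φ B = p at h1 ⊢
      simp only [mul_x, cf, B, tl_zero, tl_one, Pi.add_apply, Pi.sub_apply, Pi.smul_apply,
        smul_eq_mul, Pi.zero_apply]
      linear_combination -h1
    · rw [hl S]; simp [mul_l, cf, B]
    · intro c
      have h1 := hu S c
      generalize φ B = p at h1 ⊢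
      simp only [mul_u, cf, B, tl_zero, tl_one, Pi.add_apply, Pi.sub_apply, Pi.smul_apply,
        smul_eq_mul, Pi.zero_apply, hF0]
      linear_combination h1
    · have h1 := hk S
      generalize φ B = p at h1 ⊢
      simp only [mul_k, cf, B, tl_zero, tl_one, hz, he]
      linear_combination h1 - et y * nine

theorem main (φ : MulAut G) : ∃ β : MulAut G, ∃ h : G,
    (∀ g : G, g⁻¹ * β g ∈ Subgroup.center G) ∧ φ = β * MulAut.conj h := by
  obtain ⟨h0, H⟩ := inner_mod_center φ
  have key : ∀ a : G, φ a * (MulAut.conj h0 a)⁻¹ ∈ Subgroup.center G := by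
    intro a
    have ha : a ∈ Subgroup.closure gens := by rw [closure_gens]; trivial
    induction ha using Subgroup.closure_induction with
    | mem x hx => exact H x hx
    | one => simp
    | mul x y _ _ hx hy =>
      have : φ (x * y) * (MulAut.conj h0 (x * y))⁻¹ =
          φ x * (φ y * (MulAut.conj h0 y)⁻¹) * (MulAut.conj h0 x)⁻¹ := by
        rw [map_mul, map_mul]; group
      rw [this, (Subgroup.mem_center_iff.mp hy) (φ x), mul_assoc]
      exact mul_mem hy hx
    | inv x _ hx =>
      have : φ x⁻¹ * (MulAut.conj h0 x⁻¹)⁻¹ =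
          (φ x)⁻¹ * (φ x * (MulAut.conj h0 x)⁻¹)⁻¹ * φ x := by
        rw [map_inv, map_inv]; group
      rw [this, (Subgroup.mem_center_iff.mp (inv_mem hx)) (φ x)⁻¹, inv_mul_cancel_right]
      exact inv_mem hx
  refine ⟨φ * (MulAut.conj h0)⁻¹, h0, ?_, by group⟩
  intro g
  have h1 := key ((MulAut.conj h0)⁻¹ g)
  have h2 : MulAut.conj h0 ((MulAut.conj h0)⁻¹ g) = g := by
    rw [← MulAut.mul_apply, mul_inv_cancel, MulAut.one_apply]
  rw [h2] at h1
  have h3 : g⁻¹ * (φ * (MulAut.conj h0)⁻¹) g =
      g⁻¹ * (φ ((MulAut.conj h0)⁻¹ g) * g⁻¹) * g := by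
    rw [MulAut.mul_apply]; group
  rw [h3, (Subgroup.mem_center_iff.mp h1) g⁻¹, inv_mul_cancel_right]
  exact h1

end G

end Pool.Agent.H27R2.Caranti
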