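import Pool.Agent.H27R2.Caranti.Rel

set_option autoImplicit false
set_option linter.unusedSimpArgs false

namespace Pool.Agent.H27R2.Caranti

namespace G

lemma mul_inv_x (p q : G) (hx : p.x = q.x) (hl : p.l = q.l) : (p * q⁻¹).x = 0 := by
  ext i
  simp only [mul_x, inv_x, hx, hl, Pi.add_apply, Pi.smul_apply, Pi.neg_apply, smul_eq_mul,
    Pi.zero_apply]
  linear_combination (q.x i) * tl_mul q.l q.l

lemma mul_inv_l (p q : G) (hl : p.l = q.l) : (p * q⁻¹).l = 0 := by
  simp [mul_l, inv_l, hl]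

lemma mul_inv_u (p q : G) (hx : p.x = q.x) (hl : p.l = q.l) (i : Fin 4) :
    (p * q⁻¹).u i = p.u i - q.u i := by
  have hF : F q.x (-((1 - tl q.l) • q.x)) = 0 := by
    rw [← neg_smul, F_smul_right, F_self, smul_zero]
  simp only [mul_u, inv_u, inv_x, hx, hl, hF, Pi.add_apply, Pi.smul_apply, Pi.neg_apply,
    smul_eq_mul, Pi.zero_apply]
  linear_combination (4 * q.u i) * tl_mul q.l q.l

lemma ze_neg (x : X5) : ze (-x) = -ze x := by simp [ze]; ring
lemma et_neg (x : X5) : et (-x) = -et x := by simp [et]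

lemma mul_inv_k (p q : G) (_hx : p.x = q.x) (hl : p.l = q.l) (hk : 3 * (p.k - q.k) = 0) :
    3 * (p * q⁻¹).k = 0 := by
  simp only [mul_k, inv_k, inv_x, hl, ze_neg, et_neg, ze_smul, et_smul]
  linear_combination hk + (q.k * ze q.x - p.k * (1 - tl q.l) * ze q.x) * nine -
    3 * et q.x * tl_mul q.l q.l

lemma mul_inv_central (p q : G) (hx : p.x = q.x) (hl : p.l = q.l)
    (hu : ∀ i, 3 * (p.u i - q.u i) = 0) (hk : 3 * (p.k - q.k) = 0) :
    p * q⁻¹ ∈ Subgroup.center G :=
  central_of _ (mul_inv_x p q hx hl) (fun i => by rw [mul_inv_u p q hx hl]; exact hu i)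
    (mul_inv_k p q hx hl hk) (mul_inv_l p q hl)

/-- the generators -/
def gens : Set G := Set.range X ∪ {A, B}

lemma X_mem (i : Fin 5) : X i ∈ Subgroup.closure gens :=
  Subgroup.subset_closure (Or.inl ⟨i, rfl⟩)

lemma A_mem : A ∈ Subgroup.closure gens := Subgroup.subset_closure (Or.inr (Or.inl rfl))
lemma B_mem : B ∈ Subgroup.closure gens := Subgroup.subset_closure (Or.inr (Or.inr rfl))

lemma cm_mem {S : Subgroup G} {a b : G} (ha : a ∈ S) (hb : b ∈ S) : cm a b ∈ S :=
  S.mul_mem (S.mul_mem (S.mul_mem ha hb) (S.inv_mem ha)) (S.inv_mem hb)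

/-- elements of the kernel of the projection -/
def N (u : Fin 4 → ZMod 9) (k : ZMod 9) : G := ⟨0, u, k, 0⟩

lemma N_mul (u v : Fin 4 → ZMod 9) (k m : ZMod 9) : N u k * N v m = N (u + v) (k + m) := by
  have hF : F 0 0 = 0 := by ext i; fin_cases i <;> simp [F]
  ext i <;> simp [N, mul_x, mul_u, mul_k, mul_l, hF, ze, et]

lemma N_pow (u : Fin 4 → ZMod 9) (k : ZMod 9) (n : ℕ) : N u k ^ n = N (n • u) (n • k) := by
  induction n with
  | zero => simp; rfl
  | succ n ih => rw [pow_succ, ih, N_mul, succ_nsmul, succ_nsmul]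

lemma N_mem (u : Fin 4 → ZMod 9) (k : ZMod 9) : N u k ∈ Subgroup.closure gens := by
  have hP : ∀ c : Fin 4, N (Pi.single c 1) 0 ∈ Subgroup.closure gens := by
    intro c
    have e0 : cm (X 0) (X 1) = N (Pi.single 0 1) 0 := by
      rw [cm_eq]; ext i
      · revert i; decide
      · revert i; decide
      · decide
      · rfl
    have e1 : cm (X 0) (X 2) = N (Pi.single 1 1) 0 := by
      rw [cm_eq]; ext i
      · revert i; decide
      · revert i; decide
      · decide
      · rfl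
    have e2 : cm (X 0) (X 3) = N (Pi.single 2 1) 0 := by
      rw [cm_eq]; ext i
      · revert i; decide
      · revert i; decide
      · decide
      · rfl
    have e3 : cm (X 3) (X 4) = N (Pi.single 3 1) 0 := by
      rw [cm_eq]; ext i
      · revert i; decide
      · revert i; decide
      · decide
      · rfl
    fin_cases c
    · exact e0 ▸ cm_mem (X_mem 0) (X_mem 1)
    · exact e1 ▸ cm_mem (X_mem 0) (X_mem 2)
    · exact e2 ▸ cm_mem (X_mem 0) (X_mem 3)
    · exact e3 ▸ cm_mem (X_mem 3) (X_mem 4)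
  have hA : N 0 1 ∈ Subgroup.closure gens := A_mem
  have e : N u k = N (Pi.single 0 1) 0 ^ (u 0).val * N (Pi.single 1 1) 0 ^ (u 1).val *
      N (Pi.single 2 1) 0 ^ (u 2).val * N (Pi.single 3 1) 0 ^ (u 3).val * N 0 1 ^ k.val := by
    simp only [N_pow, N_mul]
    congr 1
    · ext i
      fin_cases i <;> simp [-ZMod.natCast_val, Pi.natCast_apply, ZMod.natCast_zmod_val]
    · simp
  rw [e]
  exact mul_mem (mul_mem (mul_mem (mul_mem (pow_mem (hP 0) _) (pow_mem (hP 1) _))
    (pow_mem (hP 2) _)) (pow_mem (hP 3) _)) (pow_mem hA _)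

lemma X_pow (i : Fin 5) (n : ℕ) : (X i ^ n).x = n • Pi.single i 1 ∧ (X i ^ n).l = 0 := by
  induction n with
  | zero => simp [one_x, one_l]
  | succ n ih =>
    rw [pow_succ, mul_x, mul_l, ih.1, ih.2]
    simp [X, succ_nsmul, add_mul]

lemma B_pow (n : ℕ) : (B ^ n).x = 0 ∧ (B ^ n).l = n := by
  induction n with
  | zero => simp [one_x, one_l]
  | succ n ih =>
    rw [pow_succ, mul_x, mul_l, ih.1, ih.2]
    simp [B]

lemma closure_gens : Subgroup.closure gens = ⊤ := by
  rw [eq_top_iff]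
  intro g _
  set q : G := X 0 ^ (g.x 0).val * X 1 ^ (g.x 1).val * X 2 ^ (g.x 2).val * X 3 ^ (g.x 3).val *
    X 4 ^ (g.x 4).val * B ^ g.l.val with hq
  have hqm : q ∈ Subgroup.closure gens :=
    mul_mem (mul_mem (mul_mem (mul_mem (mul_mem (pow_mem (X_mem 0) _) (pow_mem (X_mem 1) _))
      (pow_mem (X_mem 2) _)) (pow_mem (X_mem 3) _)) (pow_mem (X_mem 4) _)) (pow_mem B_mem _)
  have hx : g.x = q.x := by
    rw [hq]
    simp only [mul_x, mul_l, (X_pow _ _).1, (X_pow _ _).2, (B_pow _).1, add_zero, tl_zero,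
      one_smul, smul_zero]
    ext i
    fin_cases i <;> simp [-ZMod.natCast_val, Pi.natCast_apply, ZMod.natCast_zmod_val]
  have hl : g.l = q.l := by
    rw [hq]
    simp only [mul_l, (X_pow _ _).2, (B_pow _).2, add_zero, zero_add]
    simp
  have h1 := mul_inv_x g q hx hl
  have h2 := mul_inv_l g q hl
  have h3 : g * q⁻¹ = N (g * q⁻¹).u (g * q⁻¹).k := by
    ext i
    · rw [h1]; rfl
    · rfl
    · rfl
    · rw [h2]; rfl
  have h4 : g = (g * q⁻¹) * q := by group
  rw [h4]
  exact mul_mem (h3 ▸ N_mem _ _) hqm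

end G

end Pool.Agent.H27R2.Caranti
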