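import Mathlib

set_option autoImplicit false

namespace Pool.Agent.H27R2.Caranti

/-- multiplication by three, from integers modulo 3 to integers modulo 9 -/
def tl (l : ZMod 3) : ZMod 9 := 3 * (l.val : ZMod 9)

lemma nine : (9 : ZMod 9) = 0 := by decide

lemma tl_add (a b : ZMod 3) : tl (a + b) = tl a + tl b := by revert a b; decide

lemma tl_neg (a : ZMod 3) : tl (-a) = -tl a := by revert a; decide

lemma tl_mul (a b : ZMod 3) : tl a * tl b = 0 := by revert a b; decide

lemma tl_three (a : ZMod 3) : 3 * tl a = 0 := by revert a; decide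

@[simp] lemma tl_zero : tl 0 = 0 := by decide

@[simp] lemma tl_one : tl 1 = 3 := by decide

abbrev X5 := Fin 5 → ZMod 9

/-- the alternating map, first variable the component -/
def F (x y : X5) : Fin 4 → ZMod 9 :=
  ![x 0 * y 1 - x 1 * y 0 + (x 2 * y 3 - x 3 * y 2),
    x 0 * y 2 - x 2 * y 0 + (x 1 * y 3 - x 3 * y 1),
    x 0 * y 3 - x 3 * y 0 - (x 1 * y 2 - x 2 * y 1) + (x 2 * y 4 - x 4 * y 2),
    x 3 * y 4 - x 4 * y 3]

lemma F_add_left (x y z : X5) : F (x + y) z = F x z + F y z := by
  ext i; fin_cases i <;> simp [F] <;> ring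

lemma F_add_right (x y z : X5) : F x (y + z) = F x y + F x z := by
  ext i; fin_cases i <;> simp [F] <;> ring

lemma F_smul_left (c : ZMod 9) (x y : X5) : F (c • x) y = c • F x y := by
  ext i; fin_cases i <;> simp [F] <;> ring

lemma F_smul_right (c : ZMod 9) (x y : X5) : F x (c • y) = c • F x y := by
  ext i; fin_cases i <;> simp [F] <;> ring

lemma F_self (x : X5) : F x x = 0 := by
  ext i; fin_cases i <;> simp [F] <;> ring

lemma F_anti (x y : X5) : F y x = -F x y := by
  ext i; fin_cases i <;> simp [F] <;> ring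

def ze (x : X5) : ZMod 9 := x 0 + x 3 + x 4

def et (x : X5) : ZMod 9 := x 1

lemma ze_add (x y : X5) : ze (x + y) = ze x + ze y := by simp [ze]; ring
lemma ze_smul (c : ZMod 9) (x : X5) : ze (c • x) = c * ze x := by simp [ze]; ring
lemma et_add (x y : X5) : et (x + y) = et x + et y := by simp [et]
lemma et_smul (c : ZMod 9) (x : X5) : et (c • x) = c * et x := by simp [et]

@[ext] structure G where
  x : X5
  u : Fin 4 → ZMod 9
  k : ZMod 9
  l : ZMod 3

namespace G

instance : Mul G := ⟨fun g h =>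
  { x := g.x + (1 + tl g.l) • h.x
    u := g.u + (1 + 2 * tl g.l) • h.u + (5 * (1 + tl g.l)) • F g.x h.x
    k := g.k + h.k + 3 * g.k * ze h.x - tl g.l * et h.x
    l := g.l + h.l }⟩

instance : One G := ⟨{ x := 0, u := 0, k := 0, l := 0 }⟩

instance : Inv G := ⟨fun g =>
  { x := -((1 - tl g.l) • g.x)
    u := -((1 - 2 * tl g.l) • g.u)
    k := -g.k + 3 * g.k * ze g.x - tl g.l * et g.x
    l := -g.l }⟩

lemma mul_x (g h : G) : (g * h).x = g.x + (1 + tl g.l) • h.x := rfl
lemma mul_u (g h : G) : (g * h).u =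
  g.u + (1 + 2 * tl g.l) • h.u + (5 * (1 + tl g.l)) • F g.x h.x := rfl
lemma mul_k (g h : G) : (g * h).k = g.k + h.k + 3 * g.k * ze h.x - tl g.l * et h.x := rfl
lemma mul_l (g h : G) : (g * h).l = g.l + h.l := rfl
lemma one_x : (1 : G).x = 0 := rfl
lemma one_u : (1 : G).u = 0 := rfl
lemma one_k : (1 : G).k = 0 := rfl
lemma one_l : (1 : G).l = 0 := rfl
lemma inv_x (g : G) : (g⁻¹).x = -((1 - tl g.l) • g.x) := rfl
lemma inv_u (g : G) : (g⁻¹).u = -((1 - 2 * tl g.l) • g.u) := rfl
lemma inv_k (g : G) : (g⁻¹).k = -g.k + 3 * g.k * ze g.x - tl g.l * et g.x := rfl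
lemma inv_l (g : G) : (g⁻¹).l = -g.l := rfl

instance : Group G := Group.ofLeftAxioms
  (by
    intro a b c
    have h1 := tl_mul a.l b.l
    have h2 := tl_mul a.l a.l
    have h3 := tl_three a.l
    have h4 := tl_three b.l
    have h9 := nine
    ext i
    · simp only [mul_x, mul_l, tl_add, Pi.add_apply, Pi.smul_apply, smul_eq_mul]
      linear_combination (-c.x i) * h1
    · simp only [mul_x, mul_u, mul_l, tl_add, F_add_left, F_add_right, F_smul_left, F_smul_right,
        Pi.add_apply, Pi.smul_apply, smul_eq_mul]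
      linear_combination (-4 * c.u i - 5 * F b.x c.x i - 5 * F a.x c.x i) * h1 + (5 * F b.x c.x i) * h2
    · simp only [mul_x, mul_k, mul_l, tl_add, ze_add, ze_smul, et_add, et_smul]
      linear_combination (a.k * ze b.x * ze c.x) * h9 + (et c.x) * h1 -
        (et b.x * ze c.x) * h3 - (a.k * ze c.x) * h4
    · simp only [mul_l]; ring)
  (by
    intro a
    ext i
    · simp [mul_x, one_x, one_l]
    · have : F (0 : X5) a.x = 0 := by
        have := F_smul_left 0 0 a.x
        simpa using this
      simp [mul_u, one_x, one_l, one_u, this]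
    · simp [mul_k, one_k, one_l]
    · simp [mul_l, one_l])
  (by
    intro a
    have h2 := tl_mul a.l a.l
    have h3 := tl_three a.l
    have h9 := nine
    have hF : F (-((1 - tl a.l) • a.x)) a.x = 0 := by
      rw [← neg_smul, F_smul_left, F_self, smul_zero]
    ext i
    · simp only [mul_x, inv_x, inv_l, one_x, tl_neg, Pi.add_apply, Pi.smul_apply, Pi.neg_apply,
        smul_eq_mul, Pi.zero_apply]
      ring
    · simp only [mul_u, inv_u, inv_x, inv_l, one_u, tl_neg, Pi.add_apply, Pi.smul_apply,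
        Pi.neg_apply, smul_eq_mul, Pi.zero_apply, hF]
      ring
    · simp only [mul_k, inv_k, inv_l, one_k, tl_neg]
      linear_combination (a.k * ze a.x ^ 2) * h9 - (et a.x * ze a.x) * h3
    · simp [mul_l, inv_l, one_l])

end G

end Pool.Agent.H27R2.Caranti
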