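import Mathlib

set_option autoImplicit false

namespace Pool.Agent.H27R2.Caranti

/-- vectors of digits -/
structure V5 where
  a : Nat
  b : Nat
  c : Nat
  d : Nat
  e : Nat

def f3 (p : Nat → Bool) : Bool := p 0 && (p 1 && p 2)

lemma f3_spec (p : Nat → Bool) (h : f3 p = true) (n : Nat) (hn : n < 3) : p n = true := by
  simp only [f3, Bool.and_eq_true] at h
  obtain ⟨h0, h1, h2⟩ := h
  interval_cases n
  · exact h0
  · exact h1
  · exact h2

/-- equality of the values of the alternating map modulo 3, computed with natural numbers: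
`f (x, y) = f (z, w)` -/
def feq (x y z w : V5) : Bool :=
  ((x.a * y.b + 2 * x.b * y.a + x.c * y.d + 2 * x.d * y.c) +
      2 * (z.a * w.b + 2 * z.b * w.a + z.c * w.d + 2 * z.d * w.c)) % 3 == 0 &&
  (((x.a * y.c + 2 * x.c * y.a + x.b * y.d + 2 * x.d * y.b) +
      2 * (z.a * w.c + 2 * z.c * w.a + z.b * w.d + 2 * z.d * w.b)) % 3 == 0 &&
  (((x.a * y.d + 2 * x.d * y.a + 2 * x.b * y.c + x.c * y.b + x.c * y.e + 2 * x.e * y.c) +
      2 * (z.a * w.d + 2 * z.d * w.a + 2 * z.b * w.c + z.c * w.b + z.c * w.e + 2 * z.e * w.c)) % 3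
        == 0 &&
  ((x.d * y.e + 2 * x.e * y.d) + 2 * (z.d * w.e + 2 * z.e * w.d)) % 3 == 0))

/-- all candidates with given value of the functional and given second coordinate -/
def all5 (z b : Nat) (p : V5 → Bool) : Bool :=
  f3 fun a => f3 fun c => f3 fun d => p ⟨a, b, c, d, (z + 2 * a + 2 * d) % 3⟩

def isv (x : V5) (a b c d e : Nat) : Bool :=
  x.a == a && (x.b == b && (x.c == c && (x.d == d && x.e == e)))

def zv : V5 := ⟨0, 0, 0, 0, 0⟩

def chk : Bool :=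
  f3 fun k => k == 0 || f3 fun s => all5 1 s fun x0 => all5 1 s fun x4 =>
    !feq x0 x4 zv zv || all5 0 k fun x1 => !feq x1 x4 zv zv || all5 0 0 fun x2 =>
      isv x2 0 0 0 0 0 || (!feq x1 x2 x4 x2 || all5 1 s fun x3 =>
        !feq x0 x3 x2 x4 || (!feq x0 x2 x1 x3 || (!feq x0 x1 x2 x3 ||
          (k == 1 && (isv x0 1 0 0 0 0 && (isv x1 0 1 0 0 0 && (isv x2 0 0 1 0 0 &&
            (isv x3 0 0 0 1 0 && isv x4 0 0 0 0 1))))))))

set_option maxRecDepth 100000 in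
lemma chk_true : chk = true := by decide +kernel

def toV (x : Fin 5 → ZMod 3) : V5 := ⟨(x 0).val, (x 1).val, (x 2).val, (x 3).val, (x 4).val⟩

lemma all5_spec (z b : Nat) (p : V5 → Bool) (h : all5 z b p = true) (x : Fin 5 → ZMod 3)
    (hz : x 0 + x 3 + x 4 = (z : ZMod 3)) (hb : (x 1).val = b) : p (toV x) = true := by
  have h1 := f3_spec _ h (x 0).val (ZMod.val_lt _)
  have h2 := f3_spec _ h1 (x 2).val (ZMod.val_lt _)
  have h3 := f3_spec _ h2 (x 3).val (ZMod.val_lt _)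
  have e : (z + 2 * (x 0).val + 2 * (x 3).val) % 3 = (x 4).val := by
    have : x 4 = ((z + 2 * (x 0).val + 2 * (x 3).val : ℕ) : ZMod 3) := by
      push_cast
      rw [ZMod.natCast_zmod_val, ZMod.natCast_zmod_val, ← hz]
      linear_combination (-x 0 - x 3) * (by decide : (3 : ZMod 3) = 0)
    rw [this, ZMod.val_natCast]
  simp only [e] at h3
  unfold toV
  rw [hb]
  exact h3

/-- the alternating map modulo 3 -/
def Fm (x y : Fin 5 → ZMod 3) : Fin 4 → ZMod 3 :=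
  ![x 0 * y 1 - x 1 * y 0 + (x 2 * y 3 - x 3 * y 2),
    x 0 * y 2 - x 2 * y 0 + (x 1 * y 3 - x 3 * y 1),
    x 0 * y 3 - x 3 * y 0 - (x 1 * y 2 - x 2 * y 1) + (x 2 * y 4 - x 4 * y 2),
    x 3 * y 4 - x 4 * y 3]

lemma feq_of (x y z w : Fin 5 → ZMod 3) (h : Fm x y = Fm z w) :
    feq (toV x) (toV y) (toV z) (toV w) = true := by
  have h3 : (3 : ZMod 3) = 0 := by decide
  have q0 := congrFun h 0
  have q1 := congrFun h 1
  have q2 := congrFun h 2
  have q3 := congrFun h 3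
  simp only [Fm, Matrix.cons_val_zero, Matrix.cons_val_one, Matrix.cons_val] at q0 q1 q2 q3
  have key : ∀ n : ℕ, ((n : ℕ) : ZMod 3) = 0 → (n % 3 == 0) = true := by
    intro n hn
    rw [ZMod.natCast_eq_zero_iff] at hn
    simpa using Nat.mod_eq_zero_of_dvd hn
  simp only [feq, toV, Bool.and_eq_true]
  refine ⟨key _ ?_, key _ ?_, key _ ?_, key _ ?_⟩ <;> push_cast <;>
    simp only [ZMod.natCast_zmod_val]
  · linear_combination q0 + (x 1 * y 0 + x 3 * y 2 + z 0 * w 1 + z 1 * w 0 + z 2 * w 3 +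
      z 3 * w 2) * h3
  · linear_combination q1 + (x 2 * y 0 + x 3 * y 1 + z 0 * w 2 + z 2 * w 0 + z 1 * w 3 +
      z 3 * w 1) * h3
  · linear_combination q2 + (x 3 * y 0 + x 1 * y 2 + x 4 * y 2 + z 0 * w 3 + z 3 * w 0 +
      z 1 * w 2 + z 2 * w 1 + z 2 * w 4 + z 4 * w 2) * h3
  · linear_combination q3 + (x 4 * y 3 + z 3 * w 4 + z 4 * w 3) * h3

lemma isv_eq (x : Fin 5 → ZMod 3) (a b c d e : Nat) (h : isv (toV x) a b c d e = true) :
    (x 0).val = a ∧ (x 1).val = b ∧ (x 2).val = c ∧ (x 3).val = d ∧ (x 4).val = e := by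
  simpa [isv, toV] using h

lemma toV_zero : toV 0 = zv := by simp [toV, zv]

theorem search (b : Fin 5 → Fin 5 → ZMod 3) (k : ZMod 3) (hk : k ≠ 0)
    (z0 : b 0 0 + b 0 3 + b 0 4 = 1) (z1 : b 1 0 + b 1 3 + b 1 4 = 0)
    (z2 : b 2 0 + b 2 3 + b 2 4 = 0) (z3 : b 3 0 + b 3 3 + b 3 4 = 1)
    (z4 : b 4 0 + b 4 3 + b 4 4 = 1)
    (e1 : b 1 1 = k) (e2 : b 2 1 = 0) (e3 : b 3 1 = b 0 1) (e4 : b 4 1 = b 0 1)
    (n2 : b 2 ≠ 0)
    (r1 : Fm (b 0) (b 4) = 0) (r2 : Fm (b 1) (b 4) = 0)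
    (r3 : Fm (b 1) (b 2) = Fm (b 4) (b 2)) (r4 : Fm (b 0) (b 3) = Fm (b 2) (b 4))
    (r5 : Fm (b 0) (b 2) = Fm (b 1) (b 3)) (r6 : Fm (b 0) (b 1) = Fm (b 2) (b 3)) :
    (∀ i j, b i j = if i = j then 1 else 0) ∧ k = 1 := by
  have hF0 : Fm 0 0 = 0 := by ext i; fin_cases i <;> simp [Fm]
  have f1 := feq_of (b 0) (b 4) 0 0 (by rw [r1, hF0])
  have f2 := feq_of (b 1) (b 4) 0 0 (by rw [r2, hF0])
  have f3' := feq_of _ _ _ _ r3
  have f4 := feq_of _ _ _ _ r4
  have f5 := feq_of _ _ _ _ r5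
  have f6 := feq_of _ _ _ _ r6
  rw [toV_zero] at f1 f2
  have h0 := chk_true
  unfold chk at h0
  have h1 := f3_spec _ h0 k.val (ZMod.val_lt _)
  have hk' : (k.val == 0) = false := by
    rw [beq_eq_false_iff_ne]
    intro h; exact hk ((ZMod.val_eq_zero k).mp h)
  simp only [hk', Bool.false_or] at h1
  have h2 := f3_spec _ h1 (b 0 1).val (ZMod.val_lt _)
  have h3 := all5_spec _ _ _ h2 (b 0) (by rw [z0]; simp) rfl
  have h4 := all5_spec _ _ _ h3 (b 4) (by rw [z4]; simp) (by rw [e4])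
  simp only [f1, Bool.not_true, Bool.false_or] at h4
  have h5 := all5_spec _ _ _ h4 (b 1) (by rw [z1]; simp) (by rw [e1])
  simp only [f2, Bool.not_true, Bool.false_or] at h5
  have h6 := all5_spec _ _ _ h5 (b 2) (by rw [z2]; simp) (by rw [e2]; rfl)
  have hn : isv (toV (b 2)) 0 0 0 0 0 = false := by
    by_contra hc
    rw [Bool.not_eq_false] at hc
    obtain ⟨c0, c1, c2, c3, c4⟩ := isv_eq _ _ _ _ _ _ hc
    apply n2
    ext i
    rw [Pi.zero_apply]
    fin_cases i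
    · exact (ZMod.val_eq_zero _).mp c0
    · exact (ZMod.val_eq_zero _).mp c1
    · exact (ZMod.val_eq_zero _).mp c2
    · exact (ZMod.val_eq_zero _).mp c3
    · exact (ZMod.val_eq_zero _).mp c4
  simp only [hn, f3', Bool.not_true, Bool.false_or] at h6
  have h7 := all5_spec _ _ _ h6 (b 3) (by rw [z3]; simp) (by rw [e3])
  simp only [f4, f5, f6, Bool.not_true, Bool.false_or, Bool.and_eq_true] at h7
  obtain ⟨hk1, hb0, hb1, hb2, hb3, hb4⟩ := h7
  have hval : ∀ (y : ZMod 3), y.val = 0 → y = 0 := by decide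
  have hval1 : ∀ (y : ZMod 3), y.val = 1 → y = 1 := by decide
  obtain ⟨a00, a01, a02, a03, a04⟩ := isv_eq _ _ _ _ _ _ hb0
  obtain ⟨a10, a11, a12, a13, a14⟩ := isv_eq _ _ _ _ _ _ hb1
  obtain ⟨a20, a21, a22, a23, a24⟩ := isv_eq _ _ _ _ _ _ hb2
  obtain ⟨a30, a31, a32, a33, a34⟩ := isv_eq _ _ _ _ _ _ hb3
  obtain ⟨a40, a41, a42, a43, a44⟩ := isv_eq _ _ _ _ _ _ hb4
  refine ⟨?_, hval1 _ (by simpa using hk1)⟩
  intro i j
  fin_cases i <;> fin_cases j
  · exact hval1 _ a00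
  · exact hval _ a01
  · exact hval _ a02
  · exact hval _ a03
  · exact hval _ a04
  · exact hval _ a10
  · exact hval1 _ a11
  · exact hval _ a12
  · exact hval _ a13
  · exact hval _ a14
  · exact hval _ a20
  · exact hval _ a21
  · exact hval1 _ a22
  · exact hval _ a23
  · exact hval _ a24
  · exact hval _ a30
  · exact hval _ a31
  · exact hval _ a32
  · exact hval1 _ a33
  · exact hval _ a34
  · exact hval _ a40
  · exact hval _ a41
  · exact hval _ a42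
  · exact hval _ a43
  · exact hval1 _ a44

end Pool.Agent.H27R2.Caranti
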