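import Pool.Agent.H27R2.Caranti.Alg
import Pool.Agent.H27R2.Caranti.Search

set_option autoImplicit false

namespace Pool.Agent.H27R2.Caranti

/-- reduction modulo three -/
def rd : ZMod 9 →+* ZMod 3 := ZMod.castHom (by norm_num : 3 ∣ 9) (ZMod 3)

lemma rd_iff (a : ZMod 9) : 3 * a = 0 ↔ rd a = 0 := by revert a; decide

lemma rd_lift (a : ZMod 9) (h : 3 * a = 0) : ∃ l : ZMod 3, a = tl l := by revert a; decide

namespace G

lemma rel25 : cm (X 1) (X 4) = 1 := by
  rw [cm_eq]; ext i
  · fin_cases i <;> decide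
  · fin_cases i <;> decide
  · decide
  · decide

lemma rel15 : cm (X 0) (X 4) = 1 := by
  rw [cm_eq]; ext i
  · fin_cases i <;> decide
  · fin_cases i <;> decide
  · decide
  · decide

lemma rel23 : cm (X 1) (X 2) = cm (X 4) (X 2) := by
  rw [cm_eq, cm_eq]; ext i
  · fin_cases i <;> decide
  · fin_cases i <;> decide
  · decide
  · decide

lemma rel14 : cm (X 0) (X 3) = cm (X 2) (X 4) := by
  rw [cm_eq, cm_eq]; ext i
  · fin_cases i <;> decide
  · fin_cases i <;> decide
  · decide
  · decide

lemma rel13 : cm (X 0) (X 2) = cm (X 1) (X 3) := by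
  rw [cm_eq, cm_eq]; ext i
  · fin_cases i <;> decide
  · fin_cases i <;> decide
  · decide
  · decide

lemma rel12 : cm (X 0) (X 1) = cm (X 2) (X 3) := by
  rw [cm_eq, cm_eq]; ext i
  · fin_cases i <;> decide
  · fin_cases i <;> decide
  · decide
  · decide

lemma relB (i : Fin 5) (hi : i ≠ 1) : cm B (X i) = X i ^ 3 := by
  rw [cm_eq, cube]; ext j
  · revert i j; decide
  · revert i j; decide
  · revert i; decide
  · rfl

lemma relB1 : cm B (X 1) * A ^ 3 = X 1 ^ 3 := by
  rw [cm_eq, cube, cube]; ext j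
  · revert j; decide
  · revert j; decide
  · decide
  · rfl

lemma relA (i : Fin 5) (hi : i ≠ 1) (hi2 : i ≠ 2) : cm A (X i) = A ^ 3 := by
  rw [cm_eq, cube]; ext j
  · revert i j; decide
  · revert i j; decide
  · revert i; decide
  · rfl

lemma relA' (i : Fin 5) (hi : i = 1 ∨ i = 2) : cm A (X i) = 1 := by
  rw [cm_eq]; ext j
  · revert i j; decide
  · revert i j; decide
  · revert i; decide
  · rfl

lemma relAB : cm A B = 1 := by
  rw [cm_eq]; ext j
  · revert j; decide
  · revert j; decide
  · decide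
  · rfl

lemma relB3 : B ^ 3 = 1 := by
  rw [cube]; ext j
  · revert j; decide
  · revert j; decide
  · decide
  · rfl

lemma A3 : A ^ 3 ≠ 1 := by
  rw [cube]
  intro h
  have := congrArg G.k h
  revert this
  decide

end G

end Pool.Agent.H27R2.Caranti
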