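import Pool.Agent.H27R2.Caranti.Final

set_option autoImplicit false
set_option linter.unusedSimpArgs false

namespace Pool.Agent.H27R2.Caranti

namespace G

lemma nine_pow (g : G) : g ^ 9 = 1 := by
  have e : g ^ 9 = (g ^ 3) ^ 3 := by rw [← pow_mul]
  rw [e, cube, cube]
  ext i
  · simp only [Pi.smul_apply, smul_eq_mul, one_x, Pi.zero_apply]
    linear_combination g.x i * nine
  · simp only [Pi.smul_apply, smul_eq_mul, one_u, Pi.zero_apply]
    linear_combination g.u i * nine
  · simp only [one_k]
    linear_combination g.k * nine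
  · rfl

lemma pgroup : IsPGroup 3 G := by
  intro g
  exact ⟨2, nine_pow g⟩

lemma engel (x y : G) : cm (cm y x) x = 1 := by
  rw [cm_eq, cm_eq]
  have h1 := tl_mul x.l y.l
  have h2 := tl_mul x.l x.l
  have h3 := tl_three x.l
  have h4 := tl_three y.l
  have h9 := nine
  ext i
  · simp only [cf, tl_zero, Pi.sub_apply, Pi.smul_apply, smul_eq_mul, one_x, Pi.zero_apply]
    linear_combination -x.x i * h1 + y.x i * h2
  · simp only [cf, tl_zero, Pi.sub_apply, Pi.add_apply, Pi.smul_apply, smul_eq_mul, one_u,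
      Pi.zero_apply, F_sub_left, F_smul_left, F_self]
    linear_combination (-4 * x.u i - 2 * F y.x x.x i) * h1 +
      (4 * y.u i - 3 * F y.x x.x i) * h2 - F y.x x.x i * h3
  · simp only [cf, tl_zero, one_k, ze_sub, ze_smul, et_sub, et_smul]
    linear_combination (y.k * ze x.x - x.k * ze y.x) * ze x.x * h9 -
      (et x.x * ze x.x) * h4 + et y.x * ze x.x * h3 + et x.x * h1 - et y.x * h2 -
      (ze x.x * x.k) * h4 + (x.k * ze y.x) * h3
  · rfl

lemma class3 (a b c d : G) : cm (cm (cm a b) c) d = 1 := by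
  have h : Z2 (cm a b) := by
    apply Z2_of
    · intro i
      rw [cm_eq]
      simp only [cf, Pi.sub_apply, Pi.smul_apply, smul_eq_mul]
      linear_combination b.x i * tl_three a.l - a.x i * tl_three b.l
    · rw [cm_eq]; rfl
  exact h c d

lemma nontriv : cm (cm (X 0) (X 1)) B ≠ 1 := by
  rw [cm_eq, cm_eq]
  intro h
  have := congrFun (congrArg G.u h) 0
  revert this
  decide

lemma lcs3 : (⊤ : Subgroup G).lowerCentralSeries 3 = ⊥ := by
  rw [Subgroup.lowerCentralSeries_eq_bot_iff_upperCentralSeries_eq_top, eq_top_iff]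
  intro a _
  rw [Subgroup.mem_upperCentralSeries_succ_iff]
  intro b
  rw [Subgroup.mem_upperCentralSeries_succ_iff]
  intro c
  rw [Subgroup.mem_upperCentralSeries_succ_iff]
  intro d
  rw [Subgroup.upperCentralSeries_zero, Subgroup.mem_bot]
  exact class3 a b c d

lemma lcs2 : (⊤ : Subgroup G).lowerCentralSeries 2 ≠ ⊥ := by
  intro h
  have h1 : cm (cm (X 0) (X 1)) B ∈ (⊤ : Subgroup G).lowerCentralSeries 2 :=
    Subgroup.commutator_mem_commutator
      (Subgroup.commutator_mem_commutator (Subgroup.mem_top _) (Subgroup.mem_top _))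
      (Subgroup.mem_top _)
  rw [h, Subgroup.mem_bot] at h1
  exact nontriv h1

instance : Finite G := by
  have : Function.Injective (fun g : G => (g.x, g.u, g.k, g.l)) := by
    intro a b h
    simp only [Prod.mk.injEq] at h
    exact G.ext h.1 h.2.1 h.2.2.1 h.2.2.2
  exact Finite.of_injective _ this

end G

lemma lcs_map {K L : Type} [Group K] [Group L] (f : K →* L) (S : Subgroup K) (n : ℕ) :
    (S.map f).lowerCentralSeries n = (S.lowerCentralSeries n).map f := by
  induction n with
  | zero => rfl
  | succ n ih => rw [Subgroup.lowerCentralSeries_succ, Subgroup.lowerCentralSeries_succ, ih,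
      Subgroup.map_commutator]

open G in
theorem final : ∃ (n : ℕ) (H : Subgroup (Equiv.Perm (Fin n))),
      IsPGroup 3 H ∧
      (∀ x y : H,
        (y * x * y⁻¹ * x⁻¹) * x * (y * x * y⁻¹ * x⁻¹)⁻¹ * x⁻¹ = 1) ∧
      H.lowerCentralSeries 3 = ⊥ ∧
      H.lowerCentralSeries 2 ≠ ⊥ ∧
      ∀ α : MulAut H, ∃ β : MulAut H, ∃ h : H,
        (∀ g : H, g⁻¹ * β g ∈ Subgroup.center H) ∧ α = β * MulAut.conj h := by
  obtain ⟨n, ⟨e⟩⟩ := Finite.exists_equiv_fin G
  let f : G →* Equiv.Perm (Fin n) :=
    (e.permCongrHom : Equiv.Perm G →* Equiv.Perm (Fin n)).comp (MulAction.toPermHom G G)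
  have hf : Function.Injective f := by
    apply Function.Injective.comp (e.permCongrHom).injective
    exact MulAction.toPerm_injective
  let E : G ≃* f.range := MonoidHom.ofInjective hf
  refine ⟨n, f.range, ?_, ?_, ?_, ?_, ?_⟩
  · exact G.pgroup.of_equiv E
  · intro x y
    apply E.symm.injective
    have := engel (E.symm x) (E.symm y)
    simpa [cm] using this
  · rw [MonoidHom.range_eq_map, lcs_map, lcs3, Subgroup.map_bot]
  · rw [MonoidHom.range_eq_map, lcs_map]
    intro h
    rw [Subgroup.map_eq_bot_iff_of_injective _ hf] at h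
    exact lcs2 h
  · intro α
    obtain ⟨β, h, h1, h2⟩ := main ((E.trans α).trans E.symm)
    refine ⟨(E.symm.trans β).trans E, E h, ?_, ?_⟩
    · intro g
      have h3 := h1 (E.symm g)
      rw [Subgroup.mem_center_iff] at h3 ⊢
      intro k
      apply E.symm.injective
      have := h3 (E.symm k)
      simpa using this
    · ext1 g
      have h3 := congrArg (fun ψ : MulAut G => E (ψ (E.symm g))) h2
      simpa using h3

end Pool.Agent.H27R2.Caranti
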